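import Pool.Agent.H36.Sim

namespace Pool.Agent.Results.MP_dc7e63_lc.UnionHard

open Pool.Agent.H38.NP Pool.Agent.H36 Finset

/-- number of nodes, number of colours, coloured hyperedges, budget -/
abbrev Inst := ℕ × ℕ × List (List ℕ × ℕ) × ℕ

/-- well formed instances: nodes and colours in range, hyperedges pairwise different sets -/
def Valid (I : Inst) : Prop :=
  (∀ e ∈ I.2.2.1, (∀ v ∈ e.1, v < I.1) ∧ e.2 < I.2.1) ∧ (I.2.2.1.map fun e => e.1.toFinset).Nodup

/-- the colour set of node `v` -/
def col (S : List (List ℕ)) (v : ℕ) : Finset ℕ := (S.getD v []).toFinset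

/-- number of mistakes -/
def mist (I : Inst) (S : List (List ℕ)) : ℕ :=
  (I.2.2.1.filter fun e => decide (∃ v ∈ e.1, e.2 ∉ col S v)).length

def FeasG (I : Inst) (S : List (List ℕ)) : Prop :=
  (∀ v < I.1, col S v ⊆ range I.2.1 ∧ 1 ≤ #(col S v)) ∧
    ∑ v ∈ range I.1, (#(col S v) - 1) ≤ I.2.2.2

def FeasR (I : Inst) (S : List (List ℕ)) : Prop :=
  (∀ v < I.1, col S v ⊆ range I.2.1 ∧ (#(col S v) = 1 ∨ col S v = range I.2.1)) ∧
    #{v ∈ range I.1 | #(col S v) ≠ 1} ≤ I.2.2.2

/-- polynomial-time `α`-approximation on valid instances with two colours -/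
def Approx (Feas : Inst → List (List ℕ) → Prop) (α : ℝ) : Prop :=
  ∃ f, PolyTime f ∧ ∀ I, Valid I → I.2.1 = 2 → ∃ S : List (List ℕ), f (enc I) = enc S ∧
    Feas I S ∧ ∀ S', Feas I S' → (mist I S : ℝ) ≤ α * mist I S'

/-- Minimum k-Union: universe size, sets, k -/
abbrev MkU := ℕ × List (List ℕ) × ℕ

def Sol (J : MkU) (T : List ℕ) : Prop :=
  T.Nodup ∧ T.length = J.2.2 ∧ ∀ j ∈ T, j < J.2.1.length

def un (J : MkU) (T : List ℕ) : ℕ := #{x ∈ range J.1 | ∃ j ∈ T, x ∈ J.2.1.getD j []}

def ApproxMkU (α : ℝ) : Prop :=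
  ∃ f, PolyTime f ∧ ∀ J : MkU, J.2.2 ≤ J.2.1.length → ∃ T : List ℕ, f (enc J) = enc T ∧
    Sol J T ∧ ∀ T', Sol J T' → (un J T : ℝ) ≤ α * un J T'

def edge (J : MkU) (t : ℕ) : List ℕ × ℕ :=
  if t < J.1 then ((J.2.1.length + t) ::
    (List.range J.2.1.length).filter fun v => decide (t ∈ J.2.1.getD v []), 1)
  else ([J.2.1.length + t, (t - J.1) / J.1], 0)

def red (J : MkU) : Inst :=
  (J.2.1.length + (J.1 + J.2.1.length * J.1), 2,
    (List.range (J.1 + J.2.1.length * J.1)).map (edge J), J.2.1.length - J.2.2)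

def lack (J : MkU) (S : List (List ℕ)) : List ℕ :=
  (List.range J.2.1.length).filter fun v => decide (¬ 1 ∈ S.getD v [])

def back (J : MkU) (S : List (List ℕ)) : List ℕ :=
  if J.2.2 ≤ (lack J S).length then (lack J S).take J.2.2 else List.range J.2.2

def fw (J : MkU) (T : List ℕ) : List (List ℕ) :=
  (List.range (J.2.1.length + (J.1 + J.2.1.length * J.1))).map fun v =>
    if v < J.2.1.length then (if v ∈ T then [0] else [0, 1])
    else if v < J.2.1.length + J.1 then [1] else [0]

theorem flen (K : ℕ) (p : ℕ → Prop) [DecidablePred p] :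
    ((List.range K).filter fun t => decide (p t)).length = #{t ∈ range K | p t} := by
  rw [← List.toFinset_card_of_nodup (List.nodup_range.filter _)]
  congr 1
  ext; simp

theorem mist_red (J : MkU) (S : List (List ℕ)) : mist (red J) S =
    #{t ∈ range (J.1 + J.2.1.length * J.1) | ∃ v ∈ (edge J t).1, (edge J t).2 ∉ col S v} := by
  unfold mist red
  rw [List.filter_map, List.length_map, ← flen]
  rfl

theorem dlt {J : MkU} {t : ℕ} (h : t < J.1 + J.2.1.length * J.1) (h' : ¬ t < J.1) :
    (t - J.1) / J.1 < J.2.1.length := by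
  refine Nat.div_lt_of_lt_mul ?_
  rw [mul_comm]; omega

theorem edge_mem {J : MkU} {t : ℕ} (h : t < J.1 + J.2.1.length * J.1) {v : ℕ}
    (hv : v ∈ (edge J t).1) : v = J.2.1.length + t ∨ v < J.2.1.length := by
  unfold edge at hv
  split_ifs at hv with h1
  · simp only [List.mem_cons, List.mem_filter, List.mem_range] at hv
    tauto
  · simp only [List.mem_cons, List.not_mem_nil, or_false] at hv
    rcases hv with hv | hv
    · exact Or.inl hv
    · exact Or.inr (hv ▸ dlt h h1)

theorem valid_red (J : MkU) : Valid (red J) := by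
  constructor
  · intro e he
    obtain ⟨t, ht, rfl⟩ := List.mem_map.1 he
    rw [List.mem_range] at ht
    refine ⟨fun v hv => ?_, ?_⟩
    · have := edge_mem ht hv
      show v < J.2.1.length + (J.1 + J.2.1.length * J.1)
      omega
    · show _ < 2
      unfold edge; split_ifs <;> simp
  · show (((List.range _).map (edge J)).map _).Nodup
    rw [List.map_map]
    refine List.nodup_range.map_on fun s _ t ht h => ?_
    have h1 : J.2.1.length + s ∈ (edge J s).1.toFinset := by
      unfold edge; split_ifs <;> simp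
    have h2 : (edge J s).1.toFinset = (edge J t).1.toFinset := h
    rw [h2, List.mem_toFinset] at h1
    have := edge_mem (List.mem_range.1 ht) h1
    omega

theorem col_fw (J : MkU) (T : List ℕ) {v : ℕ}
    (hv : v < J.2.1.length + (J.1 + J.2.1.length * J.1)) : col (fw J T) v =
    if v < J.2.1.length then (if v ∈ T then {0} else {0, 1})
    else if v < J.2.1.length + J.1 then {1} else {0} := by
  unfold col fw
  rw [List.getD_eq_getElem _ _ (by simpa using hv)]
  simp only [List.getElem_map, List.getElem_range]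
  split_ifs <;> simp

theorem mist_fw (J : MkU) (T : List ℕ) : mist (red J) (fw J T) ≤ un J T := by
  rw [mist_red]
  refine card_le_card fun t ht => ?_
  obtain ⟨ht, v, hv, h⟩ := mem_filter.1 ht
  rw [mem_range] at ht
  have h0 := edge_mem ht hv
  rw [col_fw J T (by omega)] at h
  unfold edge at hv h
  by_cases h1 : t < J.1
  · rw [if_pos h1] at hv h
    simp only [List.mem_cons, List.mem_filter, List.mem_range, decide_eq_true_eq] at hv
    rcases hv with hv | hv
    · rw [if_neg (by omega), if_pos (by omega)] at h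
      simp at h
    · rw [if_pos hv.1] at h
      split_ifs at h with h2
      · exact mem_filter.2 ⟨mem_range.2 h1, v, h2, hv.2⟩
      · simp at h
  · rw [if_neg h1] at hv h
    rcases h0 with h0 | h0
    · rw [if_neg (by omega), if_neg (by omega)] at h
      simp at h
    · rw [if_pos h0] at h
      split_ifs at h <;> simp at h

theorem cnt_fw {J : MkU} {T : List ℕ} (hT : Sol J T) :
    #{v ∈ range (J.2.1.length + (J.1 + J.2.1.length * J.1)) | #(col (fw J T) v) ≠ 1} ≤
      J.2.1.length - J.2.2 := by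
  have h1 : T.toFinset ⊆ range J.2.1.length := fun j hj =>
    mem_range.2 (hT.2.2 j (List.mem_toFinset.1 hj))
  have h2 := card_sdiff_of_subset h1
  rw [List.toFinset_card_of_nodup hT.1, hT.2.1, card_range] at h2
  rw [← h2]
  refine card_le_card fun v hv => ?_
  obtain ⟨hv, h⟩ := mem_filter.1 hv
  rw [col_fw J T (mem_range.1 hv)] at h
  split_ifs at h with h3 h4 <;> simp_all

theorem fwG {J : MkU} {T : List ℕ} (hT : Sol J T) : FeasG (red J) (fw J T) := by
  refine ⟨fun v hv => ?_, le_trans ?_ (cnt_fw hT)⟩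
  · rw [col_fw J T hv]
    show _ ⊆ range 2 ∧ _
    split_ifs <;> decide
  · rw [card_filter]
    refine sum_le_sum fun v hv => ?_
    rw [col_fw J T (mem_range.1 hv)]
    split_ifs <;> simp_all

theorem fwR {J : MkU} {T : List ℕ} (hT : Sol J T) : FeasR (red J) (fw J T) := by
  refine ⟨fun v hv => ?_, cnt_fw hT⟩
  rw [col_fw J T hv]
  show _ ⊆ range 2 ∧ (_ ∨ _ = range 2)
  split_ifs <;> decide

def Few (J : MkU) (S : List (List ℕ)) : Prop :=
  #{v ∈ range J.2.1.length | 2 ≤ #(col S v)} ≤ J.2.1.length - J.2.2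

theorem fewG {J : MkU} {S : List (List ℕ)} (h : FeasG (red J) S) : Few J S := by
  refine le_trans ?_ h.2
  rw [card_filter]
  refine le_trans (sum_le_sum fun v _ => ?_) (sum_le_sum_of_subset (s := range J.2.1.length)
    (range_mono (Nat.le_add_right _ _)))
  split_ifs <;> omega

theorem fewR {J : MkU} {S : List (List ℕ)} (h : FeasR (red J) S) : Few J S := by
  refine le_trans (card_le_card fun v hv => ?_) h.2
  obtain ⟨h1, h2⟩ := mem_filter.1 hv
  exact mem_filter.2 ⟨range_mono (Nat.le_add_right _ _) h1, by omega⟩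

theorem back_sol {J : MkU} (hJ : J.2.2 ≤ J.2.1.length) (S : List (List ℕ)) : Sol J (back J S) := by
  unfold back
  split_ifs with h
  · refine ⟨(List.nodup_range.filter _).sublist (List.take_sublist _ _), by simp [h],
      fun j hj => ?_⟩
    exact List.mem_range.1 (List.mem_filter.1 (List.mem_of_mem_take hj)).1
  · exact ⟨List.nodup_range, by simp, fun j hj => (List.mem_range.1 hj).trans_le hJ⟩

theorem back_le {J : MkU} (hJ : J.2.2 ≤ J.2.1.length) {S : List (List ℕ)} (hS : Few J S) :
    un J (back J S) ≤ mist (red J) S := by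
  rw [mist_red]
  unfold back
  split_ifs with h
  · refine card_le_card fun t ht => ?_
    obtain ⟨ht, j, hj, h1⟩ := mem_filter.1 ht
    rw [mem_range] at ht
    have h2 := List.mem_filter.1 (List.mem_of_mem_take hj)
    refine mem_filter.2 ⟨mem_range.2 (by omega), j, ?_, ?_⟩
    · unfold edge
      rw [if_pos ht]
      exact List.mem_cons_of_mem _ (List.mem_filter.2 ⟨h2.1, by simpa using h1⟩)
    · unfold edge col
      rw [if_pos ht]
      simpa using h2.2
  · have h1 : (lack J S).length = #{v ∈ range J.2.1.length | ¬ 1 ∈ S.getD v []} := flen _ _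
    have h2 := card_filter_add_card_filter_not (s := range J.2.1.length)
      (fun v => 1 ∈ S.getD v [])
    rw [card_range] at h2
    obtain ⟨v, hv, hv'⟩ := exists_mem_notMem_of_card_lt_card
      (s := {v ∈ range J.2.1.length | 2 ≤ #(col S v)})
      (t := {v ∈ range J.2.1.length | 1 ∈ S.getD v []}) (by
        unfold Few at hS
        omega)
    obtain ⟨hv1, hv2⟩ := mem_filter.1 hv
    have h0 : 0 ∉ col S v := fun h0 => hv' (mem_filter.2 ⟨hv1, one_lt_card.2
      ⟨0, h0, 1, List.mem_toFinset.2 hv2, by simp⟩⟩)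
    rw [mem_range] at hv1
    refine (card_filter_le _ _).trans (card_le_card_of_injOn (fun i => J.1 + (J.1 * v + i))
      (fun i hi => ?_) fun i _ j _ h => by simpa using h)
    have hi' : i < J.1 := by simpa using hi
    have e : (J.1 + (J.1 * v + i) - J.1) / J.1 = v := by
      rw [Nat.add_sub_cancel_left, Nat.mul_add_div (by omega), Nat.div_eq_of_lt hi', add_zero]
    refine mem_coe.2 (mem_filter.2 ⟨mem_range.2 (by nlinarith), v, ?_, ?_⟩)
    · unfold edge
      beta_reduce
      rw [if_neg (by omega), e]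
      simp
    · unfold edge
      beta_reduce
      rw [if_neg (by omega)]
      exact h0

theorem pt_red : PT red := by unfold red edge; fun_prop

theorem pt_back : PT fun p : MkU × List (List ℕ) => back p.1 p.2 := by
  unfold back lack; fun_prop

theorem transfer {α : ℝ} (hα : 0 ≤ α) {Feas : Inst → List (List ℕ) → Prop}
    (h1 : ∀ J S, Feas (red J) S → Few J S) (h2 : ∀ J T, Sol J T → Feas (red J) (fw J T))
    (h : Approx Feas α) : ApproxMkU α := by
  obtain ⟨f, hf, h⟩ := h
  have h3 : PT fun J : MkU => (Dec.dec (⟨f (enc (red J))⟩ : Bits) : List (List ℕ)) :=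
    Dec.pt.comp ((Sim.pt_of_polyTime hf).comp pt_red.raw)
  obtain ⟨g, hg, h4⟩ := (pt_back.comp (PT.id'.mk h3)).polyTimeOn fun _ => True
  refine ⟨g, hg, fun J hJ => ?_⟩
  obtain ⟨S, e, h5, h6⟩ := h (red J) (valid_red J) rfl
  refine ⟨back J S, by
    rw [h4 J trivial]; simp only [e]; exact congrArg _ (congrArg _ (Dec.dec_raw S)),
    back_sol hJ S, fun T hT => ?_⟩
  have h7 : (un J (back J S) : ℝ) ≤ mist (red J) S := by exact_mod_cast back_le hJ (h1 J S h5)
  have h8 : (mist (red J) (fw J T) : ℝ) ≤ un J T := by exact_mod_cast mist_fw J T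
  exact h7.trans ((h6 _ (h2 J T hT)).trans (mul_le_mul_of_nonneg_left h8 hα))

theorem result (α : ℝ) (hα : 1 ≤ α) :
    (Approx FeasG α → ApproxMkU α) ∧ (Approx FeasR α → ApproxMkU α) :=
  ⟨transfer (by linarith) (fun _ _ => fewG) (fun _ _ => fwG),
    transfer (by linarith) (fun _ _ => fewR) (fun _ _ => fwR)⟩

end Pool.Agent.Results.MP_dc7e63_lc.UnionHard
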